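import Pool.Agent.H15.KI.All2

/-!
# Chow groups of one-cycles and Milnor K-cohomology of thickenings
-/

namespace Pool.Agent.Results.MP_7b949a_ag.MilnorRestriction

open AlgebraicGeometry CategoryTheory Pool.Agent.H15.KS Pool.Agent.H62.KB Pool.Agent.H15.KI

universe u

/-- Let `A` be a henselian discrete valuation ring of characteristic zero with uniformiser `π`, let
`p` be a prime number, `p = ε π ^ E` with a unit `ε`, and let `X` be smooth and projective over `A`
of relative dimension `d = e + 1` (`X` is noetherian, which follows from this). Let `T` be the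
Milnor K-sheaf of degree `d`, or Kerz's improved Milnor K-sheaf of degree `d`, and assume the
Gersten conjecture for `T` on `X`. Let `q = p ^ r`. Then the restriction maps
`resQ T f q n : CH^d(X) / q → H^d(X_n, T_{X_n} / q)` form an isomorphism of pro-abelian
groups, they are surjective for `n ≥ 1` and bijective for `n ≥ 2 r E + 2`. The other parts of
the conclusion say that the morphisms in the statement satisfy the conditions by which they are
defined: the comparison and the restriction maps of the improved Milnor K-sheaf (which are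
compatible: `T.c ≫ T.res = pull ≫ T.c`), the reductions `resM`, the restriction maps `resH` on
cohomology, the augmentation `aug` (the only extension to `T` of the map given by the symbols), the
homomorphism `cycT` (the iterated connecting homomorphism of the Gersten resolution) and `resQ`
(induced by `cycT` and the reduction; `pushH` is the canonical map from the cohomology of a closed
subscheme to that of the direct image). -/
theorem result : ∀ (A : Type u) [CommRing A] [IsDomain A] [IsDiscreteValuationRing A]
    [HenselianLocalRing A] [CharZero A] (p : ℕ), p.Prime → ∀ (π ε : A) (E : ℕ), Irreducible π →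
    IsUnit ε → (p : A) = ε * π ^ E →
    ∀ (X : Scheme.{u}) [IsNoetherian X] (f : X ⟶ Spec (CommRingCat.of A)) (e : ℕ)
      [SmoothOfRelativeDimension (e + 1) f], IsProjectiveOver f →
    ∀ T : Version (e + 1), T = naive (e + 1) ∨ T = improved (e + 1) → GerstenT T X →
    (∀ (Y Z : Scheme.{u}) (i : Z ⟶ Y),
      (improved (e + 1)).c Y ≫ inKI (e + 1) Y = onSh (k0 (e + 1)) Y ∧
      (improved (e + 1)).res i ≫ (pushF i).map (inKI (e + 1) Z) =
        inKI (e + 1) Y ≫ pull (NagF ⋙ MKF (e + 1)) i ∧
      T.c Y ≫ T.res i = pull (MKF (e + 1)) i ≫ (pushF i).map (T.c Z) ∧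
      ∀ q : ℕ, toQ T Y q ≫ resM T i q = redQ T i q ∧ (IsClosedImmersion i → ∀ k : ℕ,
        resH T i q k ≫ pushH i (Q T Z q) k = onH (resM T i q) k)) ∧
    (∀ g : T.S X ⟶ C X (e + 1) (e + 1), T.c X ≫ g = top X (e + 1) ↔ g = aug T X) ∧
    (∀ z : Cyc X e, IsConn (C X (e + 1)) (dC X (e + 1)) e (aug T X) (ZZ X)
      (ap (toH (C X (e + 1) 0)) z) (ap (cycT T X) z)) ∧ ∀ r : ℕ,
    (∀ n : ℕ, toCHq X e (p ^ r) ≫ resQ T f (p ^ r) n ≫
        pushH (thickι f n) (Q T (thick f n) (p ^ r)) (e + 1) =
      cycT T X ≫ onH (redQ T (thickι f n) (p ^ r)) (e + 1)) ∧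
    ProIsoQ T f (p ^ r) ∧
    (∀ n ≥ 1, Function.Surjective (ap (resQ T f (p ^ r) n))) ∧
    ∀ n ≥ 2 * (r * E) + 2, Function.Bijective (ap (resQ T f (p ^ r) n)) :=
  final2

end Pool.Agent.Results.MP_7b949a_ag.MilnorRestriction
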